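import Pool.Agent.P.MP_710d87_nt.Extend

/-!
Every `k`-icube in `ℤ^8` (`1 ≤ k ≤ 8`) extends to an `8`-icube of the same norm.
The columns of `A` are the vectors `v_1, ..., v_k`; the sum over `r` is the product `v_i^T v_j`.
-/

namespace Pool.Agent.Results.MP_710d87_nt.IcubeEight

open Matrix Pool.Agent.P.MP_710d87_nt

lemma extend_to {k : ℕ} (hk1 : 1 ≤ k) (lam : ℤ) (hlam : 0 < lam)
    (v : Fin k → Fin 8 → ℤ) (hv : ∀ i j, v i ⬝ᵥ v j = if i = j then lam else 0)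
    (m : ℕ) (hkm : k ≤ m) : m ≤ 8 → ∃ w : Fin m → Fin 8 → ℤ,
      (∀ i j, w i ⬝ᵥ w j = if i = j then lam else 0) ∧ ∀ j : Fin k, w (Fin.castLE hkm j) = v j := by
  induction m, hkm using Nat.le_induction with
  | base => intro _; exact ⟨v, hv, fun j => rfl⟩
  | succ m hkm ih =>
    intro hm
    obtain ⟨w, hw, hwv⟩ := ih (by omega)
    obtain ⟨u, hu, hwu⟩ := extend_one (by omega) (by omega) lam hlam w hw
    refine ⟨Fin.snoc (α := fun _ => Fin 8 → ℤ) w u, ?_, ?_⟩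
    · intro i j
      refine Fin.lastCases ?_ (fun i => ?_) i <;> refine Fin.lastCases ?_ (fun j => ?_) j
      · simp [hu]
      · simp [dotProduct_comm u, hwu, (Fin.castSucc_ne_last j).symm]
      · simp [hwu, Fin.castSucc_ne_last i]
      · simp [hw]
    · intro j
      have h : Fin.castLE (Nat.le_succ_of_le hkm) j = Fin.castSucc (Fin.castLE hkm j) := rfl
      rw [h, Fin.snoc_castSucc, hwv]

theorem result (k : ℕ) (hk1 : 1 ≤ k) (hk8 : k ≤ 8) (lam : ℝ) (hlam : 0 < lam)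
    (A : Matrix (Fin 8) (Fin k) ℤ)
    (hA : ∀ i j : Fin k, ((∑ r, A r i * A r j : ℤ) : ℝ) = if i = j then lam else 0) :
    ∃ B : Matrix (Fin 8) (Fin 8) ℤ,
      (∀ i j : Fin 8, ((∑ r, B r i * B r j : ℤ) : ℝ) = if i = j then lam else 0) ∧
      ∀ (r : Fin 8) (j : Fin k), B r (Fin.castLE hk8 j) = A r j := by
  obtain ⟨l, hl⟩ : ∃ l : ℤ, (l : ℝ) = lam := ⟨_, (hA ⟨0, hk1⟩ ⟨0, hk1⟩).trans (if_pos rfl)⟩
  subst hl
  have hl0 : 0 < l := by exact_mod_cast hlam
  obtain ⟨w, hw, hwv⟩ := extend_to hk1 l hl0 (fun j r => A r j) (fun i j => by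
    have h := hA i j
    have h2 : ((∑ r, A r i * A r j : ℤ) : ℝ) = ((if i = j then l else 0 : ℤ) : ℝ) := by
      rw [h]; split_ifs <;> simp
    exact_mod_cast h2) 8 hk8 le_rfl
  refine ⟨Matrix.of fun r j => w j r, fun i j => ?_, fun r j => ?_⟩
  · have h := hw i j
    simp only [dotProduct] at h
    simp only [Matrix.of_apply, h]
    split_ifs <;> simp
  · simp [hwv]

end Pool.Agent.Results.MP_710d87_nt.IcubeEight
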